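import Mathlib
import Pool.Agent.Lib.MP_f0f681_an.Final

/-!
# A weak*-closed translation-invariant subalgebra of `B(G)` which is not conjugation-closed

For the discrete group `G = F × ℤ/3`, with `F` the free group on 18 generators, the
Fourier-Stieltjes algebra `B(G)` has a weak*-closed, left and right translation-invariant, unital
subalgebra `B` which is not closed under complex conjugation.

Construction: let `χ` be a faithful character of `ℤ/3` and `S` the algebra of all functions
`c + v` on `G` with `c` constant, `v ∈ ℓ⁴(G)` and `v(z ·) - χ(z) v ∈ ℓ²(G)`, where `z` is the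
generator of `ℤ/3`.  It is an algebra since a product of two `ℓ⁴` functions is in `ℓ²`.
`B` is the weak* closure of `S ∩ B(G)`.  It contains the coefficient function
`f(γ, k) = χ(k) (5/13)^|γ|`, but not its conjugate: with `A` the sum of the 36 letters, `λ(A) ≤ 12`
in the regular representation, while Haagerup's positive definite function has value
`36 · 5/13 > 12` at `A`, so that a continuous function of `A` (in the full group C*-algebra),
multiplied with a suitable central projection, annihilates `S ∩ B(G)` but not the conjugate of `f`.
-/

open scoped ComplexConjugate

namespace Pool.Agent.Results.MP_f0f681_an.Counterexample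

open Pool.Agent.Lib.MP_f0f681_an

/-- The group `F₁₈ × ℤ/3`, where `F₁₈` is the free group on 18 generators. -/
abbrev FreeTimesCyclic : Type := FreeGroup (Fin 18) × Multiplicative (ZMod 3)

/-- For `G = F₁₈ × ℤ/3` there is a weak*-closed, translation-invariant (unital) subalgebra `B` of
the Fourier-Stieltjes algebra `B(G)` and `f ∈ B` whose complex conjugate is not in `B`. -/
theorem result :
    ∃ B : Subalgebra ℂ (FreeTimesCyclic → ℂ),
      (B : Set (FreeTimesCyclic → ℂ)) ⊆ FourierStieltjes FreeTimesCyclic ∧
      IsWeakStarClosed (B : Set (FreeTimesCyclic → ℂ)) ∧
      IsTranslationInvariant (B : Set (FreeTimesCyclic → ℂ)) ∧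
      ∃ f ∈ B, (fun x => conj (f x)) ∉ B :=
  main

end Pool.Agent.Results.MP_f0f681_an.Counterexample
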